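import Pool.Agent.V8H73.SE.Jm
import Pool.Agent.V8H73.SE.Jg

/-!
# Strong exponential closedness for almost all complete intersections

Let `P_1, …, P_n` be polynomials in `x_1, …, x_n, y_1, …, y_n` with supports in given finite sets of monomials each of
which contains `1, x_l, y_l, x_l y_l` for all `l` (for instance all polynomials of given degrees at least two), `c` the
vector of their coefficients. For a set `J` of indices let `V_(c, J)` be the variety defined by the equations `P_j = 0`,
`j` in `J`. Let `K₀` be a countable field of complex numbers (for instance the field of rational numbers). For almost all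
vectors `c` of complex coefficients, and also for almost all vectors `c` of real coefficients, the following is true for
all `J`.

* `V_(c, J)` is irreducible, additively free, multiplicatively free, rotund, and `dim V_(c, J) = 2 n - |J|`; it is
  defined over the field `K₀(c_J)` generated by the coefficients of its equations.
* Let `K` be a field of finite transcendence degree over `K₀` over which `V_(c, J)` is defined, for instance any
  finitely generated field of definition. `V_(c, J)` has infinitely many exponential points `(z, e^z)` which are generic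
  in `V_(c, J)` over `K`, that is, of transcendence degree `dim V_(c, J)` over `K`, outside of each proper Zariski closed
  subset. This is strong exponential closedness for these varieties, as asked in the question.
* If `|J| = n`, so that `dim V_(c, J) = n`, then each proper Zariski closed subset of `V_(c, J)` contains only finitely
  many exponential points, and if all elements of `K` are algebraic over `K₀(c, t_1, …, t_m)`, then all but at most `m`
  exponential points of `V_(c, J)` are generic over `K`.

So the question has a positive answer for almost all complete intersections with these supports, of all dimensions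
`2 n - r`, `0 ≤ r ≤ n`, which are possible for rotund varieties. There is no hypothesis (Schanuel's conjecture, CIT).

Proof. First `|J| = n`. By Ax's theorem (`V8H73.AN`) the coefficients `c` and all coordinates of all solutions `z` of the
system `P_j(z, e^z) = 0` together are algebraically independent over `K₀`, and the solutions are nondegenerate. If
`m + 1` solutions were not generic over `K₀(c, t_1, …, t_m)`, then `K₀(c, t, z)` would be generated by too few elements
over `K₀` (`SE.Fg`). There are solutions `z_l = 2 π i N^(a_l) + b_l log N + w_l` for all large `N`, with bounded `w_l`,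
by the implicit function theorem at infinity, for suitable integral weights `a_l > 0` and `b_l` of the variables `x_l`
and `y_l` for which the leading parts of the equations have a nondegenerate common zero in the torus. To find the weights
take a zero `y` in the torus of the system `P_j(2 π i T, y)`, `T` transcendental, and the valuations of the `y_l` for a
valuation with `T` large; the transfer principle for algebraically closed fields gives complex zeros of the leading
parts, which are nondegenerate for independent coefficients. The irreducible components through `(z, e^z)` are the same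
for all solutions `z`, because all pairs of different solutions are conjugate over `K₀(c)` by automorphisms of the field
of complex numbers, and infinitely many solutions have the same set of components; such arguments show that there is
only one component, invariant under the automorphisms over `K₀(c)`. Each component contains points conjugate to an
exponential point, because `V_c` is smooth of dimension `n`.

Now let `J` be arbitrary. Add the equations `P'_j = 0`, `j` not in `J`, with coefficients `c'` which are independent over
a given countable field `A` and for which the first part applies to `(c_J, c')` (Fubini). If a polynomial `f` over `A`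
does not vanish on `V_(c, J)`, then it does not vanish at some point `p` of transcendence degree `2 n - |J|` over `A`,
because `V_(c, J)` is smooth; `p` lies on `P'_j = 0`, `j` not in `J`, for coefficients conjugate to `c'` over `A`, so `f`
does not vanish on the irreducible variety of `(c_J, c')`. This shows that `V_(c, J)` is irreducible. Since `V_(c, J)`
contains the variety of `(c_J, c')`, it is free and rotund, and it contains the exponential points of that variety,
all but finitely many of which are generic over `K(c')`; then they have transcendence degree `2 n - |J|` over `K`.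
-/

set_option autoImplicit false

open MeasureTheory MvPolynomial

namespace Pool.Agent.Results.MP_d2ed07_lc.AlmostAllSystems

/-- the exponents of the monomials in `x_1, …, x_n, y_1, …, y_n` -/
abbrev Exponent (n : ℕ) : Type := Fin n ⊕ Fin n →₀ ℕ

variable {n : ℕ} {S : Finset (Fin n × Exponent n)}

/-- the polynomial `P_j`: the sum of the monomials `c_(j, m) x^(m_x) y^(m_y)` with `(j, m)` in `S` -/
noncomputable def poly (c : S → ℂ) (j : Fin n) : MvPolynomial (Fin n ⊕ Fin n) ℂ :=
  ∑ q : S, if q.1.1 = j then monomial q.1.2 (c q) else 0

/-- the exponential points of the variety of an ideal: the set of all `z` with `(z, e^z)` in the variety -/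
def expPoints (P : Ideal (MvPolynomial (Fin n ⊕ Fin n) ℂ)) : Set (Fin n → ℂ) :=
  {z | ∀ f ∈ P, eval (Sum.elim z fun i => Complex.exp (z i)) f = 0}

/-- the ideal generated by the polynomials `P_j` with `j` in `J` -/
noncomputable def systemIdeal (c : S → ℂ) (J : Finset (Fin n)) : Ideal (MvPolynomial (Fin n ⊕ Fin n) ℂ) :=
  Ideal.span (poly c '' (J : Set (Fin n)))

/-- the coordinate functions in the function field of the variety of a prime ideal -/
noncomputable def coord (P : Ideal (MvPolynomial (Fin n ⊕ Fin n) ℂ)) [P.IsPrime] (o : Fin n ⊕ Fin n) :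
    FractionRing (MvPolynomial (Fin n ⊕ Fin n) ℂ ⧸ P) :=
  algebraMap (MvPolynomial (Fin n ⊕ Fin n) ℂ ⧸ P) (FractionRing (MvPolynomial (Fin n ⊕ Fin n) ℂ ⧸ P))
    (Ideal.Quotient.mk P (X o))

/-- the variety meets the torus part and is additively and multiplicatively free -/
def Free (P : Ideal (MvPolynomial (Fin n ⊕ Fin n) ℂ)) [P.IsPrime] : Prop :=
  (∀ i : Fin n, (X (Sum.inr i) : MvPolynomial (Fin n ⊕ Fin n) ℂ) ∉ P) ∧
  (∀ m : Fin n → ℤ, m ≠ 0 → ∀ b : ℂ, ∑ i, (m i : FractionRing (MvPolynomial (Fin n ⊕ Fin n) ℂ ⧸ P)) *
    coord P (Sum.inl i) ≠ algebraMap ℂ (FractionRing (MvPolynomial (Fin n ⊕ Fin n) ℂ ⧸ P)) b) ∧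
  ∀ m : Fin n → ℤ, m ≠ 0 → ∀ b : ℂ, ∏ i, coord P (Sum.inr i) ^ m i ≠
    algebraMap ℂ (FractionRing (MvPolynomial (Fin n ⊕ Fin n) ℂ ⧸ P)) b

/-- the variety is rotund: for each integral matrix with `k` independent rows the image has dimension at least `k` -/
def Rotund (P : Ideal (MvPolynomial (Fin n ⊕ Fin n) ℂ)) [P.IsPrime] : Prop :=
  ∀ (k : ℕ) (M : Fin k → Fin n → ℤ), LinearIndependent ℤ M → ∃ s : Finset (Fin k ⊕ Fin k), s.card = k ∧
    AlgebraicIndependent ℂ (fun j : s => Sum.elim
      (fun r : Fin k => ∑ i, (M r i : FractionRing (MvPolynomial (Fin n ⊕ Fin n) ℂ ⧸ P)) * coord P (Sum.inl i))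
      (fun r : Fin k => ∏ i, coord P (Sum.inr i) ^ M r i) (j : Fin k ⊕ Fin k))

/-- the variety is defined over the field `K` -/
def DefinedOver (K : Subfield ℂ) (P : Ideal (MvPolynomial (Fin n ⊕ Fin n) ℂ)) : Prop :=
  P = Ideal.span {f : MvPolynomial (Fin n ⊕ Fin n) ℂ | f ∈ P ∧ ∀ mo, f.coeff mo ∈ K}

/-- the exponential point `(z, e^z)` is generic over `K` in the variety: its transcendence degree is the dimension -/
def GenericPoint (K : Subfield ℂ) (P : Ideal (MvPolynomial (Fin n ⊕ Fin n) ℂ)) [P.IsPrime] (z : Fin n → ℂ) : Prop :=
  Algebra.trdeg K (IntermediateField.adjoin K (Set.range z ∪ Set.range fun i => Complex.exp (z i))) =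
    Algebra.trdeg ℂ (FractionRing (MvPolynomial (Fin n ⊕ Fin n) ℂ ⧸ P))

/-- For each field `K` of definition, all elements of which are algebraic over `K₀(c, t_1, …, t_m)`, all but at most `m`
exponential points are generic over `K`. -/
def AlmostAllGeneric (K₀ : Subfield ℂ) (c : S → ℂ) (P : Ideal (MvPolynomial (Fin n ⊕ Fin n) ℂ)) [P.IsPrime] : Prop :=
  ∀ (K : Subfield ℂ) (m : ℕ) (t : Fin m → ℂ),
    (∀ x ∈ K, IsAlgebraic (IntermediateField.adjoin K₀ (Set.range c ∪ Set.range t)) x) → DefinedOver K P →
    {z | z ∈ expPoints P ∧ ¬ GenericPoint K P z}.encard ≤ m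

/-- The variety of `P` has infinitely many exponential points, but polynomials not vanishing on it vanish only at
finitely many of them. -/
def ManyExpPoints (P : Ideal (MvPolynomial (Fin n ⊕ Fin n) ℂ)) : Prop :=
  (expPoints P).Infinite ∧ ∀ f : MvPolynomial (Fin n ⊕ Fin n) ℂ, f ∉ P →
    {z | z ∈ expPoints P ∧ eval (Sum.elim z fun i => Complex.exp (z i)) f = 0}.Finite

/-- For each field `K` of definition, all elements of which are algebraic over a field `K₀(c, t_1, …, t_m)`, and each
polynomial `f` not vanishing on the variety there are infinitely many exponential points of the variety which are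
generic over `K` and not zeros of `f`. -/
def DenseGeneric (K₀ : Subfield ℂ) (c : S → ℂ) (P : Ideal (MvPolynomial (Fin n ⊕ Fin n) ℂ)) [P.IsPrime] : Prop :=
  ∀ (K : Subfield ℂ) (m : ℕ) (t : Fin m → ℂ),
    (∀ x ∈ K, IsAlgebraic (IntermediateField.adjoin K₀ (Set.range c ∪ Set.range t)) x) → DefinedOver K P →
    ∀ f : MvPolynomial (Fin n ⊕ Fin n) ℂ, f ∉ P →
      {z | z ∈ expPoints P ∧ GenericPoint K P z ∧ eval (Sum.elim z fun i => Complex.exp (z i)) f ≠ 0}.Infinite

/-- The variety of the equations `P_j = 0`, `j` in `J`, is irreducible (its ideal `P` is prime), free, rotund, of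
dimension `2 n - |J|`, defined over the field generated by the coefficients of the `P_j`, `j` in `J`, over `K₀`, and it
satisfies strong exponential closedness, in the stronger form with exceptions if `J` contains all indices. -/
def StronglyClosed (K₀ : Subfield ℂ) (c : S → ℂ) (J : Finset (Fin n)) : Prop :=
  ∃ (P : Ideal (MvPolynomial (Fin n ⊕ Fin n) ℂ)) (_ : P.IsPrime), P = (systemIdeal c J).radical ∧
    Free P ∧ Rotund P ∧
    Algebra.trdeg ℂ (FractionRing (MvPolynomial (Fin n ⊕ Fin n) ℂ ⧸ P)) = (2 * n - J.card : ℕ) ∧
    DefinedOver (Subfield.closure ((K₀ : Set ℂ) ∪ {x | ∃ q : S, q.1.1 ∈ J ∧ c q = x})) P ∧ DenseGeneric K₀ c P ∧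
    (J = Finset.univ → ManyExpPoints P ∧ AlmostAllGeneric K₀ c P)

section aux

open Pool.Agent.V8H73.SE

theorem full_of (hS : Pool.Agent.V8H73.AN.Four S) (hn : 0 < n) {K₀ : Subfield ℂ} [Countable K₀] {c : S → ℂ}
    (hc : Cm K₀ c) (h : AlgebraicIndependent K₀
      (Sum.elim c fun q : {z : Fin n → ℂ // val c z = 0} × Fin n => (q.1 : Fin n → ℂ) q.2))
    {P : Ideal (MvPolynomial (Fin n ⊕ Fin n) ℂ)} (hP : P = Vi c) [P.IsPrime] :
    ManyExpPoints P ∧ AlmostAllGeneric K₀ c P := by
  subst hP
  obtain ⟨h1, h2, h3⟩ := Vi_main hS ⟨0, hn⟩ hc h
  have hpoly : ∀ j, poly c j ∈ Vi c := fun j => h2.1.2 (Ideal.subset_span ⟨j, rfl⟩)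
  have hi : (Zp (Vi c)).Infinite := by
    rw [Zp_Vi]
    exact hc.inf
  have hgp := gp_frac (Vi c)
  have hd := dim_eq hgp hc hpoly hi
  refine ⟨⟨hi, ?_⟩, ?_⟩
  · intro f hf
    by_contra hinf
    refine hf (le_of_common (P₁ := Ideal.span {f}) hc hgp hpoly ?_ (Ideal.mem_span_singleton_self f))
    refine Set.Infinite.mono ?_ hinf
    rintro z ⟨hz1, hz2⟩
    refine ⟨fun g hg => ?_, hz1⟩
    obtain ⟨a, rfl⟩ := Ideal.mem_span_singleton'.1 hg
    rw [map_mul, hz2, mul_zero]
  · intro K m t hK hdef
    have h4 := generic hc hpoly t hK hdef
    have h5 : {z | z ∈ expPoints (Vi c) ∧ ¬ GenericPoint K (Vi c) z} =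
        {z | z ∈ Zp (Vi c) ∧ ¬ Algebra.trdeg K (IntermediateField.adjoin K
          (Set.range z ∪ Set.range fun l => Complex.exp (z l))) = n} := by
      unfold GenericPoint
      rw [hd]
      rfl
    rw [h5]
    exact h4

theorem closed_of (hS : Pool.Agent.V8H73.AN.Four S) (hn : 0 < n) {K₀ : Subfield ℂ} [Countable K₀] {c : S → ℂ}
    (hc : Cm K₀ c) (h : AlgebraicIndependent K₀
      (Sum.elim c fun q : {z : Fin n → ℂ // val c z = 0} × Fin n => (q.1 : Fin n → ℂ) q.2)) (J : Finset (Fin n))
    (hg : GJ K₀ c J) : StronglyClosed K₀ c J := by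
  have hAJ : AlgebraicIndependent K₀ (fun s : {s : S // s.1.1 ∈ J} => c s) :=
    (h.comp Sum.inl Sum.inl_injective).comp Subtype.val Subtype.val_injective
  have hP := irr_J hS hn hAJ hg
  have hgp := gp_frac (IJ c J).radical
  have hx := ind_xJ hS hn hg hgp
  have hd := dimJ hS hAJ hg hgp
  refine ⟨(IJ c J).radical, hP, rfl, ⟨?_, addfreeJ hx, mulfreeJ hS hn hg hgp⟩, rotundJ hx, ?_, defJ, ?_, ?_⟩
  · intro i hi'
    obtain ⟨c', h1⟩ := hg K₀ inferInstance
    obtain ⟨z, hz⟩ := (vi_inf h1.cm).nonempty
    have h4 := hz _ (h1.rad_le hS hn hi')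
    rw [eval_X] at h4
    exact Complex.exp_ne_zero _ h4
  · rw [two_mul]
    exact hd
  · intro K m t hK hdef f hf
    have h4 := many_J hS hn hAJ hg t hK hdef hf
    refine h4.mono ?_
    rintro z ⟨h5, h6, h7⟩
    refine ⟨h5, ?_, h7⟩
    unfold GenericPoint
    rw [hd]
    exact h6
  · rintro rfl
    have h1 : (IJ c Finset.univ).radical = Vi c := by
      rw [← rad_eq hS ⟨0, hn⟩ hc h]
      unfold IJ
      rw [Finset.coe_univ, Set.image_univ]
    exact full_of hS hn hc h h1

end aux

/-- **Strong exponential closedness for almost all complete intersections.** Let the supports of `P_1, …, P_n` contain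
`1, x_l, y_l, x_l y_l` for all `l`, `n ≥ 1`, `K₀` a countable field. For almost all complex and almost all real vectors
`c` of coefficients and all sets `J` of indices the variety `V_(c, J)` defined by `P_j = 0`, `j` in `J`, is irreducible,
free, rotund, of dimension `2 n - |J|` and defined over `K₀(c_J)`, and it has infinitely many exponential points generic
over `K` outside of each proper closed subset, for each field of definition `K` algebraic over some `K₀(c, t_1, …, t_m)`.
If `|J| = n`, then proper closed subsets contain only finitely many exponential points, and all but at most `m`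
exponential points are generic over `K`. -/
theorem result (hn : 0 < n) (S : Finset (Fin n × Exponent n)) (h1 : ∀ j, (j, 0) ∈ S)
    (hx : ∀ j l, (j, Finsupp.single (Sum.inl l) 1) ∈ S) (hy : ∀ j l, (j, Finsupp.single (Sum.inr l) 1) ∈ S)
    (hxy : ∀ j l, (j, Finsupp.single (Sum.inl l) 1 + Finsupp.single (Sum.inr l) 1) ∈ S)
    (K₀ : Subfield ℂ) [Countable K₀] :
    (∀ᵐ c : S → ℂ, ∀ J : Finset (Fin n), StronglyClosed K₀ c J) ∧
      ∀ᵐ c : S → ℝ, ∀ J : Finset (Fin n), StronglyClosed K₀ (fun q => (c q : ℂ)) J := by
  have hS : Pool.Agent.V8H73.AN.Four S := ⟨h1, hx, hy, hxy⟩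
  constructor
  · filter_upwards [(Pool.Agent.V8H73.SE.ae_both hS hn K₀).1,
      ae_all_iff.2 fun J => (Pool.Agent.V8H73.SE.ae_GJ hS hn K₀ J).1] with c hc hg J
    exact closed_of hS hn hc.1 hc.2 J (hg J)
  · filter_upwards [(Pool.Agent.V8H73.SE.ae_both hS hn K₀).2,
      ae_all_iff.2 fun J => (Pool.Agent.V8H73.SE.ae_GJ hS hn K₀ J).2] with c hc hg J
    exact closed_of hS hn hc.1 hc.2 J (hg J)

end Pool.Agent.Results.MP_d2ed07_lc.AlmostAllSystems
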